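import Pool.Agent.H37.LM.Main

/-!
# Lipschitz modality is not a bi-Lipschitz invariant

The germs `f = x ^ 6 - y ^ 6` and `g = x ^ 6 + x y ^ 5` have isolated singularities (Milnor number `25`)
and are bi-Lipschitz right equivalent, but for every `k ≥ 7` (so for every `k ≥ 26 = μ + 1`) the
Lipschitz modality of `f`, computed in `k`-jets, is at least `3`, and the one of `g` at most `2`.
Moreover some neighbourhood of `g` contains no set of pairwise inequivalent jets of dimension `≥ 5`.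
-/

namespace Pool.Agent.Results.MP_0461ca_ag.NotInvariant

open H37.LM
open scoped Topology ContDiff

theorem result (k : ℕ) (hk : 7 ≤ k) : ∃ f g : Jet k,
    evalJet f = (fun p : ℂ × ℂ => p.1 ^ 6 - p.2 ^ 6) ∧
    evalJet g = (fun p : ℂ × ℂ => p.1 ^ 6 + p.1 * p.2 ^ 5) ∧
    (∀ p, fderiv ℂ (evalJet f) p = 0 → p = 0) ∧ (∀ p, fderiv ℂ (evalJet g) p = 0 → p = 0) ∧
    LipEquiv (evalJet f) (evalJet g) ∧ 3 ≤ Lmod k f ∧ Lmod k g ≤ 2 ∧
    ∃ U ∈ 𝓝 g, ∀ S : Set (Jet k), S ⊆ U → PairwiseInequiv S → ∀ m : ℕ, 5 ≤ m →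
      ¬ ∃ σ : (Fin m → ℝ) → Jet k, ContDiffOn ℝ ∞ σ (Metric.ball 0 1) ∧
        Set.InjOn σ (Metric.ball 0 1) ∧ ∀ s ∈ Metric.ball (0 : Fin m → ℝ) 1, σ s ∈ S := by
  have hf : evalJet (fJet k) = fun p : ℂ × ℂ => p.1 ^ 6 - p.2 ^ 6 :=
    funext fun p => evalJet_fJet k hk p
  have hg : evalJet (gJet k) = fun p : ℂ × ℂ => p.1 ^ 6 + p.1 * p.2 ^ 5 :=
    funext fun p => evalJet_gJet k (by omega) p
  refine ⟨fJet k, gJet k, hf, hg, ?_, ?_, ?_, lmod_f k hk, lmod_g k (by omega), ?_⟩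
  · intro p hp
    rw [hf] at hp
    exact isolated_f p hp
  · intro p hp
    rw [hg] at hp
    exact isolated_g p hp
  · rw [hf, hg]
    exact sextic_equiv
  · obtain ⟨U, hU, hup⟩ := upper k (by omega)
    refine ⟨U, hU, fun S hSU hS m hm => ?_⟩
    rintro ⟨σ, hσ, hinj, hmem⟩
    obtain ⟨s0, hs0, s1, hs1, hne, hlip⟩ := hup m hm σ hσ fun s hs => hSU (hmem s hs)
    exact hS (σ s0) (hmem s0 hs0) (σ s1) (hmem s1 hs1)
      (fun h => hne (hinj hs1 hs0 h.symm)) hlip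

end Pool.Agent.Results.MP_0461ca_ag.NotInvariant
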